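import Pool.Agent.H4.L.R_pool_sql_team_seeded_3997aac3.Q23.CS.Loops

/-!
# Stabilizers of free splittings with one vertex: the congruence topology
-/

set_option autoImplicit false

namespace Pool.Agent.Q23.CS

open Pool.Agent.Q24.CG (KK mem_KK KK_char KK_fin fi_comap cp sh cp_zero cp_ne sh_apply sh_inv
  detect detect')

variable {I J : Type} (A : Subgroup (MulAut (FreeGroup I)))

/-- normal form of the images of letters -/
theorem shape {α : MulAut (FreeGroup (I ⊕ J))} (hα : α ∈ loops J A) :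
    ∃ σ : Equiv.Perm J, ∀ j : J, ∃ (u v : FreeGroup I) (y : FreeGroup (I ⊕ J)),
      (y = lt I (σ j) ∨ y = (lt I (σ j))⁻¹) ∧ α (lt I j) = il I J u * y * il I J v := by
  obtain ⟨_, σ, hσ⟩ := hα
  refine ⟨σ, fun j => ?_⟩
  obtain ⟨u, v, h | h⟩ := hσ j
  · exact ⟨u, v, _, Or.inl rfl, h⟩
  · exact ⟨u, v, _, Or.inr rfl, h⟩

theorem loops_12 [Finite I] [Finite J] (h : FullAut A) : FullAut (loops J A) := by
  classical
  intro M hM
  obtain ⟨KA, hKAc, hKAf, hKA⟩ := h _ (fi_comap (exA (J := J) A) M)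
  have hqA : Finite (FreeGroup I ⧸ KA) := Subgroup.finiteIndex_iff_finite_quotient.mp hKAf
  -- the subgroup of twists
  let Z := M.comap (twA (J := J) A)
  have hZ : Z.FiniteIndex := fi_comap _ _
  let Z1 := Z.comap (MonoidHom.inl (J → FreeGroup I) (J → FreeGroup I))
  let Z2 := Z.comap (MonoidHom.inr (J → FreeGroup I) (J → FreeGroup I))
  have hZ1 : Z1.FiniteIndex := fi_comap _ _
  have hZ2 : Z2.FiniteIndex := fi_comap _ _
  let W : Subgroup (FreeGroup I) := ⨅ j : J,
    (Z1.comap (MonoidHom.mulSingle (fun _ : J => FreeGroup I) j) ⊓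
      Z2.comap (MonoidHom.mulSingle (fun _ : J => FreeGroup I) j))
  have hW : W.FiniteIndex := by
    refine Subgroup.finiteIndex_iInf (fun j => ?_)
    have h1 : (Z1.comap (MonoidHom.mulSingle (fun _ : J => FreeGroup I) j)).FiniteIndex :=
      fi_comap _ _
    have h2 : (Z2.comap (MonoidHom.mulSingle (fun _ : J => FreeGroup I) j)).FiniteIndex :=
      fi_comap _ _
    infer_instance
  have hWn : W.normalCore.FiniteIndex := inferInstance
  let P := FreeGroup I ⧸ W.normalCore
  let π : FreeGroup I →* P := QuotientGroup.mk' _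
  have hπ : ∀ u : FreeGroup I, π u = 1 → u ∈ W := fun u hu =>
    Subgroup.normalCore_le _ ((QuotientGroup.eq_one_iff _).1 hu)
  have hPf : Finite P := Subgroup.finiteIndex_iff_finite_quotient.mp hWn
  refine ⟨KK (FreeGroup (I ⊕ J)) (Equiv.Perm (P × ZMod 3)) ⊓
    KK (FreeGroup (I ⊕ J)) (FreeGroup I ⧸ KA), ?_, ?_, ?_⟩
  · refine ⟨fun ϕ => ?_⟩
    rw [Subgroup.comap_inf, KK_char.fixed ϕ, KK_char.fixed ϕ]
  · have h1 : (KK (FreeGroup (I ⊕ J)) (Equiv.Perm (P × ZMod 3))).FiniteIndex := KK_fin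
    have h2 : (KK (FreeGroup (I ⊕ J)) (FreeGroup I ⧸ KA)).FiniteIndex := KK_fin
    infer_instance
  · intro α hα
    obtain ⟨⟨a, ha, ha'⟩, -⟩ := α.2
    have ha'' : ∀ w, (α : MulAut (FreeGroup (I ⊕ J))) (il I J w) = il I J (a w) := ha'
    have h1 : ∀ w : FreeGroup I, a w * w⁻¹ ∈ KA := by
      intro w
      have h4 := mem_KK.1 (hα (il I J w)).2 ((QuotientGroup.mk' KA).comp (rt Sum.inl))
      rw [ha'', map_mul, map_inv, MonoidHom.comp_apply, MonoidHom.comp_apply, rt_io linj,
        rt_io linj, ← map_inv, ← map_mul] at h4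
      exact (QuotientGroup.eq_one_iff _).1 h4
    have h2 : exA (J := J) A ⟨a, ha⟩ ∈ M := hKA ⟨a, ha⟩ h1
    obtain ⟨σ, hσ⟩ := shape A α.2
    have h3 : ∀ j : J, ∃ u ∈ W, ∃ v ∈ W, (α : MulAut (FreeGroup (I ⊕ J))) (lt I j) =
        il I J u * lt I j * il I J v := by
      intro j
      obtain ⟨u, v, y, hy, h4⟩ := hσ j
      have h5 := mem_KK.1 (hα (lt I j)).1 (th π j)
      rw [map_mul, map_inv, mul_inv_eq_one, th_of, h4] at h5
      obtain ⟨h6, h7, h8, h9⟩ := th_key π j hy h5
      refine ⟨u, hπ u h8, v, hπ v h9, ?_⟩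
      rw [h4, h7, h6]
    choose u hu v hv huv using h3
    have hWu : ∀ u : J → FreeGroup I, (∀ j, u j ∈ W) → u ∈ Z1 ∧ u ∈ Z2 := by
      intro u hu
      constructor
      · apply Subgroup.pi_mem_of_mulSingle_mem
        intro j
        exact (Subgroup.mem_iInf.1 (hu j) j).1
      · apply Subgroup.pi_mem_of_mulSingle_mem
        intro j
        exact (Subgroup.mem_iInf.1 (hu j) j).2
    have h4 : ((u⁻¹, v) : (J → FreeGroup I) × (J → FreeGroup I)) ∈ Z := by
      have e : ((u⁻¹, v) : (J → FreeGroup I) × (J → FreeGroup I)) = (u⁻¹, 1) * (1, v) := by simp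
      rw [e]
      exact mul_mem (hWu u⁻¹ (fun j => inv_mem (hu j))).1 (hWu v hv).2
    have h5 : twA A (u⁻¹, v) * exA (J := J) A ⟨a, ha⟩ = α := by
      apply Subtype.ext
      apply MulEquiv.toMonoidHom_injective
      refine hom_ext_l (fun w => ?_) (fun j => ?_)
      · change tw (u⁻¹, v) (ex linj a (il I J w)) = (α : MulAut (FreeGroup (I ⊕ J))) (il I J w)
        rw [ex_io, tw_io, ha'']
      · change tw (u⁻¹, v) (ex linj a (lt I j)) = (α : MulAut (FreeGroup (I ⊕ J))) (lt I j)
        rw [ex_of linj a (lne j), huv, tw_of]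
        simp
    rw [← h5]
    exact mul_mem h4 h2

theorem conj_mem_loops (hA : ∀ g, MulAut.conj g ∈ A) (g : FreeGroup I) :
    MulAut.conj (il I J g) ∈ loops J A := by
  refine ⟨⟨MulAut.conj g, hA g, fun w => ?_⟩, 1, fun j => ⟨g, g⁻¹, Or.inl ?_⟩⟩
  · change MulAut.conj (il I J g) (il I J w) = il I J (g * w * g⁻¹)
    rw [MulAut.conj_apply, map_mul, map_mul, map_inv]
  · change MulAut.conj (il I J g) (lt I j) = il I J g * lt I j * il I J g⁻¹
    rw [MulAut.conj_apply, map_inv]

theorem loops_23 [Finite I] [Finite J] [Nonempty I] (hA : ∀ g, MulAut.conj g ∈ A)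
    (h : FullAut (loops J A)) : FullOut (loops J A) := by
  intro M hM hin
  obtain ⟨K0, hK0c, hK0f, hK0⟩ := h M hM
  let P := FreeGroup (I ⊕ J) ⧸ K0
  let π : FreeGroup (I ⊕ J) →* P := QuotientGroup.mk' K0
  have hP : Finite P := Subgroup.finiteIndex_iff_finite_quotient.mp hK0f
  let B : Subgroup P := (π.comp (il I J)).range
  have hB : ∀ w, π (il I J w) ∈ B := fun w => ⟨w, rfl⟩
  refine ⟨K0 ⊓ KK (FreeGroup (I ⊕ J)) (Wq P B), ?_, ?_, ?_⟩
  · refine ⟨fun ϕ => ?_⟩
    rw [Subgroup.comap_inf, hK0c.fixed ϕ, KK_char.fixed ϕ]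
  · have h1 : (KK (FreeGroup (I ⊕ J)) (Wq P B)).FiniteIndex := KK_fin
    infer_instance
  · rintro α ⟨g, hg⟩
    obtain ⟨i0⟩ := (inferInstance : Nonempty I)
    obtain ⟨⟨a, _, ha'⟩, -⟩ := α.2
    have h1 : π g ∈ B := by
      have h3 := mem_KK.1 (hg (FreeGroup.of (Sum.inl i0))).2 (ch B π (Sum.inl i0))
      rw [map_mul, map_inv, mul_inv_eq_one] at h3
      refine mal (e := Sum.inl) i0 hB (g := g) (w := a (FreeGroup.of i0)) ?_
      rw [← h3]
      congr 1
      have := ha' (FreeGroup.of i0)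
      rw [FreeGroup.map.of] at this
      exact this
    obtain ⟨v, hv⟩ := h1
    have hv' : π (il I J v) = π g := hv
    let c : loops J A := ⟨MulAut.conj (il I J v), conj_mem_loops A hA v⟩
    have hc : c ∈ M := hin _ _
    have h2 : c⁻¹ * α ∈ M := by
      apply hK0
      intro w
      have h3 : π ((α : MulAut (FreeGroup (I ⊕ J))) w) = π g * π w * (π g)⁻¹ := by
        have h4 : π ((α : MulAut (FreeGroup (I ⊕ J))) w * (g * w * g⁻¹)⁻¹) = 1 :=
          (QuotientGroup.eq_one_iff _).2 (hg w).1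
        rw [map_mul, map_inv, mul_inv_eq_one, map_mul, map_mul, map_inv] at h4
        exact h4
      have h4 : ((c⁻¹ * α : loops J A) : MulAut (FreeGroup (I ⊕ J))) w =
          (il I J v)⁻¹ * (α : MulAut (FreeGroup (I ⊕ J))) w * il I J v := by
        change (MulAut.conj (il I J v))⁻¹ ((α : MulAut (FreeGroup (I ⊕ J))) w) = _
        rw [← map_inv, MulAut.conj_apply, inv_inv]
      rw [h4, ← QuotientGroup.eq_one_iff]
      change π _ = 1
      rw [map_mul, map_mul, map_mul, map_inv, map_inv, h3, hv']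
      group
    have h5 : α = c * (c⁻¹ * α) := by group
    rw [h5]
    exact mul_mem hc h2

/-! ## from the stabilizer to the vertex group -/

/-- the action on the homomorphisms to the group of order three -/
def act (F : Type) [Group F] : MulAut F →* Equiv.Perm (F →* Multiplicative (ZMod 3)) where
  toFun α :=
    { toFun := fun f => f.comp (α⁻¹ : MulAut F).toMonoidHom
      invFun := fun f => f.comp α.toMonoidHom
      left_inv := fun f => by
        ext x
        change f (α⁻¹ (α x)) = f x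
        rw [MulAut.inv_apply_self]
      right_inv := fun f => by
        ext x
        change f (α (α⁻¹ x)) = f x
        rw [MulAut.apply_inv_self] }
  map_one' := by
    ext f x
    rfl
  map_mul' α β := by
    ext f x
    change f ((α * β)⁻¹ x) = f (β⁻¹ (α⁻¹ x))
    rw [mul_inv_rev]
    rfl

theorem act_ker {F : Type} [Group F] {α : MulAut F} (h : act F α = 1)
    (f : F →* Multiplicative (ZMod 3)) (x : F) : f (α x) = f x := by
  have h1 := congrArg (fun e : Equiv.Perm (F →* Multiplicative (ZMod 3)) => e f) h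
  have h2 := DFunLike.congr_fun h1 (α x)
  change f (α⁻¹ (α x)) = f (α x) at h2
  rw [MulAut.inv_apply_self] at h2
  exact h2.symm

theorem act_conj {F : Type} [Group F] (g : F) : act F (MulAut.conj g) = 1 := by
  ext f x
  change f ((MulAut.conj g)⁻¹ x) = f x
  rw [← map_inv, MulAut.conj_apply, map_mul, map_mul, map_inv, inv_inv, mul_comm _ (f g),
    ← mul_assoc]
  simp

/-- the elements acting trivially on the homomorphisms to the group of order three -/
def L1 (J : Type) (A : Subgroup (MulAut (FreeGroup I))) : Subgroup (loops J A) :=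
  ((act (FreeGroup (I ⊕ J))).comp (loops J A).subtype).ker

theorem L1_fi [Finite I] [Finite J] : (L1 J A).FiniteIndex := by
  have : Finite (FreeGroup (I ⊕ J) →* Multiplicative (ZMod 3)) :=
    Pool.Agent.Q24.PG.finite_hom _ _
  unfold L1
  infer_instance

open Classical in
/-- the homomorphism counting the letter `j0` -/
noncomputable def cnt (I : Type) {J : Type} (j0 : J) :
    FreeGroup (I ⊕ J) →* Multiplicative (ZMod 3) :=
  FreeGroup.lift (Sum.elim (fun _ => 1) (fun j => if j = j0 then Multiplicative.ofAdd 1 else 1))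

theorem cnt_io (j0 : J) (w : FreeGroup I) : cnt I j0 (il I J w) = 1 := by
  have : (cnt I j0).comp (il I J) = 1 := by
    ext i
    simp [cnt]
  exact DFunLike.congr_fun this w

theorem cnt_of (j0 : J) : cnt I j0 (lt I j0) = Multiplicative.ofAdd 1 := by
  simp [cnt]

theorem cnt_ne {j j0 : J} (h : j ≠ j0) : cnt I j0 (lt I j) = 1 := by
  simp [cnt, h]

theorem L1_shape (j0 : J) {α : loops J A} (hα : α ∈ L1 J A) :
    ∃ u v, (α : MulAut (FreeGroup (I ⊕ J))) (lt I j0) = il I J u * lt I j0 * il I J v := by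
  obtain ⟨σ, hσ⟩ := shape A α.2
  obtain ⟨u, v, y, hy, h1⟩ := hσ j0
  have h2 := act_ker (MonoidHom.mem_ker.1 hα) (cnt I j0) (lt I j0)
  change cnt I j0 ((α : MulAut (FreeGroup (I ⊕ J))) (lt I j0)) = _ at h2
  rw [h1, map_mul, map_mul, cnt_io, cnt_io, one_mul, mul_one, cnt_of] at h2
  have hk : σ j0 = j0 := by
    by_contra hne
    rcases hy with rfl | rfl
    · rw [cnt_ne hne] at h2
      exact absurd h2 (by decide)
    · rw [map_inv, cnt_ne hne, inv_one] at h2
      exact absurd h2 (by decide)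
  rw [hk] at hy
  rcases hy with rfl | rfl
  · exact ⟨u, v, h1⟩
  · rw [map_inv, cnt_of] at h2
    exact absurd h2 (by decide)

/-- the left factor of the image of `x j0` -/
noncomputable def uu (j0 : J) (α : MulAut (FreeGroup (I ⊕ J))) : FreeGroup I :=
  (th (MonoidHom.id (FreeGroup I)) j0 (α (lt I j0)) (1, 2)).1

theorem uu_eq {j0 : J} {α : MulAut (FreeGroup (I ⊕ J))} {u v : FreeGroup I}
    (h : α (lt I j0) = il I J u * lt I j0 * il I J v) : uu j0 α = u := by
  rw [uu, h, th_val]

theorem mul_conj {G : Type} [Group G] (a : MulAut G) (g : G) :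
    a * MulAut.conj g = MulAut.conj (a g) * a := by
  ext x
  simp [MulAut.mul_apply, MulAut.conj_apply]

/-- The homomorphism `α ↦ u⁻¹ α u`, where `α (x j0) = u * x j0 * v`. -/
noncomputable def Phi (hA : ∀ g, MulAut.conj g ∈ A) (j0 : J) : L1 J A →* A where
  toFun α := ⟨MulAut.conj (uu j0 ((α : loops J A) : MulAut (FreeGroup (I ⊕ J))))⁻¹, hA _⟩ *
    rsA A (α : loops J A)
  map_one' := by
    apply Subtype.ext
    change MulAut.conj (uu j0 (1 : MulAut (FreeGroup (I ⊕ J))))⁻¹ *
      (rsA A (1 : loops J A) : MulAut (FreeGroup I)) = 1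
    rw [uu_eq (u := 1) (v := 1) (by simp), map_one]
    simp
  map_mul' := by
    rintro ⟨α, hα⟩ ⟨β, hβ⟩
    obtain ⟨u, v, hu⟩ := L1_shape A j0 hα
    obtain ⟨u', v', hu'⟩ := L1_shape A j0 hβ
    apply Subtype.ext
    change MulAut.conj (uu j0 ((α * β : loops J A) : MulAut (FreeGroup (I ⊕ J))))⁻¹ *
      (rsA A (α * β) : MulAut (FreeGroup I)) =
      (MulAut.conj (uu j0 (α : MulAut (FreeGroup (I ⊕ J))))⁻¹ *
        (rsA A α : MulAut (FreeGroup I))) *
      (MulAut.conj (uu j0 (β : MulAut (FreeGroup (I ⊕ J))))⁻¹ *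
        (rsA A β : MulAut (FreeGroup I)))
    have h1 : ((α * β : loops J A) : MulAut (FreeGroup (I ⊕ J))) (lt I j0) =
        il I J ((rsA A α : MulAut (FreeGroup I)) u' * u) * lt I j0 *
          il I J (v * (rsA A α : MulAut (FreeGroup I)) v') := by
      change (α : MulAut (FreeGroup (I ⊕ J))) ((β : MulAut (FreeGroup (I ⊕ J))) (lt I j0)) = _
      rw [hu', map_mul, map_mul, hu, rsA_spec, rsA_spec, map_mul, map_mul]
      simp only [mul_assoc]
    rw [uu_eq hu, uu_eq hu', uu_eq h1, map_mul (rsA A), Subgroup.coe_mul]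
    have h2 := mul_conj (rsA A α : MulAut (FreeGroup I)) u'⁻¹
    calc MulAut.conj ((rsA A α : MulAut (FreeGroup I)) u' * u)⁻¹ *
          ((rsA A α : MulAut (FreeGroup I)) * (rsA A β : MulAut (FreeGroup I)))
        = MulAut.conj u⁻¹ * (MulAut.conj ((rsA A α : MulAut (FreeGroup I)) u'⁻¹) *
          (rsA A α : MulAut (FreeGroup I))) * (rsA A β : MulAut (FreeGroup I)) := by
          rw [mul_inv_rev, map_mul, map_inv (rsA A α : MulAut (FreeGroup I))]
          simp only [mul_assoc]
      _ = _ := by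
          rw [← h2]
          simp only [mul_assoc]

theorem Phi_val (hA : ∀ g, MulAut.conj g ∈ A) (j0 : J) (α : L1 J A) :
    Phi A hA j0 α = ⟨MulAut.conj (uu j0 ((α : loops J A) : MulAut (FreeGroup (I ⊕ J))))⁻¹, hA _⟩ *
      rsA A (α : loops J A) := rfl

theorem loops_31 [Finite I] [Finite J] [Nonempty I] [Nonempty J]
    (hA : ∀ g, MulAut.conj g ∈ A) (h : FullOut (loops J A)) : FullAut A := by
  intro N hN
  obtain ⟨i0⟩ := (inferInstance : Nonempty I)
  obtain ⟨j0⟩ := (inferInstance : Nonempty J)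
  have h1 : (N.comap (Phi A hA j0)).FiniteIndex := fi_comap _ _
  have h2 : (L1 J A).FiniteIndex := L1_fi A
  have h3 : ((N.comap (Phi A hA j0)).map (L1 J A).subtype).FiniteIndex := by
    refine ⟨?_⟩
    rw [Subgroup.index_map_subtype]
    exact mul_ne_zero h1.index_ne_zero h2.index_ne_zero
  obtain ⟨K, hKc, hKf, hK⟩ := h _ h3 (by
    intro g hg
    have hv : ∃ v, g = il I J v := by
      obtain ⟨⟨a, _, ha'⟩, -⟩ := hg
      refine mal_io (e := Sum.inl) i0 (g := g) (w := a (FreeGroup.of i0)) ?_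
      have := ha' (FreeGroup.of i0)
      rw [FreeGroup.map.of] at this
      exact this
    obtain ⟨v, rfl⟩ := hv
    have hL : (⟨MulAut.conj (il I J v), hg⟩ : loops J A) ∈ L1 J A := act_conj _
    refine ⟨⟨_, hL⟩, ?_, rfl⟩
    change Phi A hA j0 _ ∈ N
    rw [Phi_val]
    have e1 : uu j0 (MulAut.conj (il I J v)) = v := by
      apply uu_eq (v := v⁻¹)
      rw [MulAut.conj_apply, map_inv]
    have e2 : rsA A (⟨MulAut.conj (il I J v), hg⟩ : loops J A) = ⟨MulAut.conj v, hA v⟩ := by
      apply rsA_eq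
      intro w
      change MulAut.conj (il I J v) (il I J w) = il I J (v * w * v⁻¹)
      rw [MulAut.conj_apply, map_mul, map_mul, map_inv]
    have e3 : (⟨MulAut.conj (uu j0 (MulAut.conj (il I J v)))⁻¹, hA _⟩ : A) *
        ⟨MulAut.conj v, hA v⟩ = 1 := by
      apply Subtype.ext
      change MulAut.conj (uu j0 (MulAut.conj (il I J v)))⁻¹ * MulAut.conj v = 1
      rw [e1, ← map_mul, inv_mul_cancel, map_one]
    change (⟨MulAut.conj (uu j0 (MulAut.conj (il I J v)))⁻¹, hA _⟩ : A) *
      rsA A (⟨MulAut.conj (il I J v), hg⟩ : loops J A) ∈ N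
    rw [e2, e3]
    exact one_mem _)
  have hP : Finite (FreeGroup (I ⊕ J) ⧸ K) := Subgroup.finiteIndex_iff_finite_quotient.mp hKf
  refine ⟨KK (FreeGroup I) (FreeGroup (I ⊕ J) ⧸ K), KK_char, KK_fin, ?_⟩
  intro a ha
  have h4 : exA (J := J) A a ∈ (N.comap (Phi A hA j0)).map (L1 J A).subtype := by
    apply hK
    refine ⟨1, fun w => ?_⟩
    rw [one_mul, inv_one, mul_one]
    have h5 : (QuotientGroup.mk' K).comp
        ((exA (J := J) A a : MulAut (FreeGroup (I ⊕ J))) :
          FreeGroup (I ⊕ J) →* FreeGroup (I ⊕ J)) = QuotientGroup.mk' K := by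
      refine hom_ext_l (fun v => ?_) (fun j => ?_)
      · change QuotientGroup.mk' K (ex linj _ (il I J v)) = _
        rw [ex_io]
        exact agree _ _ _ (ha v)
      · change QuotientGroup.mk' K (ex linj _ (lt I j)) = _
        rw [ex_of linj _ (lne j)]
    rw [← QuotientGroup.eq_one_iff]
    change QuotientGroup.mk' K _ = 1
    rw [map_mul, map_inv, mul_inv_eq_one]
    exact DFunLike.congr_fun h5 w
  obtain ⟨β, hβ, hβa⟩ := h4
  have h5 : Phi A hA j0 β ∈ N := hβ
  rw [Phi_val] at h5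
  have e0 : (β : loops J A) = exA (J := J) A a := hβa
  rw [e0] at h5
  have e1 : uu j0 ((exA (J := J) A a : loops J A) : MulAut (FreeGroup (I ⊕ J))) = 1 := by
    apply uu_eq (v := 1)
    change ex linj _ (lt I j0) = _
    rw [ex_of linj _ (lne j0), map_one, one_mul, mul_one]
  have e2 : rsA A (exA (J := J) A a) = a := by
    apply rsA_eq
    intro w
    exact ex_io linj _ w
  have e3 : (⟨MulAut.conj (uu j0 ((exA (J := J) A a : loops J A) :
      MulAut (FreeGroup (I ⊕ J))))⁻¹, hA _⟩ : A) = 1 := by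
    apply Subtype.ext
    change MulAut.conj _ = 1
    rw [e1, inv_one, map_one]
  rw [e2, e3, one_mul] at h5
  exact h5

theorem loops_21 [Finite I] [Finite J] (h : FullAut (loops J A)) : FullAut A := by
  intro N hN
  have h1 : (N.comap (rsA (J := J) A)).FiniteIndex := fi_comap _ _
  obtain ⟨K, hKc, hKf, hK⟩ := h _ h1
  have hP : Finite (FreeGroup (I ⊕ J) ⧸ K) := Subgroup.finiteIndex_iff_finite_quotient.mp hKf
  refine ⟨KK (FreeGroup I) (FreeGroup (I ⊕ J) ⧸ K), KK_char, KK_fin, ?_⟩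
  intro a ha
  have h4 : exA (J := J) A a ∈ N.comap (rsA (J := J) A) := by
    apply hK
    intro w
    have h5 : (QuotientGroup.mk' K).comp
        ((exA (J := J) A a : MulAut (FreeGroup (I ⊕ J))) :
          FreeGroup (I ⊕ J) →* FreeGroup (I ⊕ J)) = QuotientGroup.mk' K := by
      refine hom_ext_l (fun v => ?_) (fun j => ?_)
      · change QuotientGroup.mk' K (ex linj _ (il I J v)) = _
        rw [ex_io]
        exact agree _ _ _ (ha v)
      · change QuotientGroup.mk' K (ex linj _ (lt I j)) = _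
        rw [ex_of linj _ (lne j)]
    rw [← QuotientGroup.eq_one_iff]
    change QuotientGroup.mk' K _ = 1
    rw [map_mul, map_inv, mul_inv_eq_one]
    exact DFunLike.congr_fun h5 w
  have e2 : rsA A (exA (J := J) A a) = a := by
    apply rsA_eq
    intro w
    exact ex_io linj _ w
  have h5 : rsA A (exA (J := J) A a) ∈ N := h4
  rwa [e2] at h5

theorem loops_main [Finite I] [Finite J] [Nonempty I] [Nonempty J] :
    (FullAut A ↔ FullAut (loops J A)) ∧
      ((∀ g : FreeGroup I, MulAut.conj g ∈ A) → (FullAut A ↔ FullOut (loops J A))) :=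
  ⟨⟨loops_12 A, loops_21 A⟩, fun hA =>
    ⟨fun h => loops_23 A hA (loops_12 A h), loops_31 A hA⟩⟩

end Pool.Agent.Q23.CS
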